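import Mathlib
import Pool.Agent.H34.L.H13R3.WB.Chains

/-! Balance constants of finite posets; linear extensions and initial segments. -/

open Finset

namespace Pool.Agent.H13R3.WB

/-- The probability that `x` comes before `y` in a uniformly random linear extension of `P`,
a linear extension being a bijection from `P` to the numbers smaller than `|P|` that is
monotone. -/
noncomputable def prob (P : Type) [Fintype P] [PartialOrder P] (x y : P) : ℝ :=
  (Nat.card {f : P ≃ Fin (Fintype.card P) // Monotone f ∧ f x < f y} : ℝ) /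
    Nat.card {f : P ≃ Fin (Fintype.card P) // Monotone f}

/-- The balance constant of `P`: the maximum over all pairs `(x, y)` of
`min (prob x y) (prob y x)`. -/
noncomputable def balance (P : Type) [Fintype P] [PartialOrder P] : ℝ :=
  ⨆ p : P × P, min (prob P p.1 p.2) (prob P p.2 p.1)

/-- The class `𝒟`: the smallest class of posets closed under isomorphism that contains the
one-element poset and the three-element poset with one relation (the disjoint union of a two-element
chain and a point) and is closed under direct (ordinal) sums. -/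
inductive InD : (P : Type) → [PartialOrder P] → Prop
  | one (P : Type) [PartialOrder P] : Nonempty (P ≃o Fin 1) → InD P
  | three (P : Type) [PartialOrder P] : Nonempty (P ≃o (Fin 2 ⊕ Fin 1)) → InD P
  | sum (P Q R : Type) [PartialOrder P] [PartialOrder Q] [PartialOrder R] :
      InD P → InD Q → Nonempty (R ≃o (P ⊕ₗ Q)) → InD R

/-- In a poset of the class `𝒟` no element is incomparable to three distinct elements. -/
theorem InD.few {P : Type} [PartialOrder P] (h : InD P) :
    ∀ p q₁ q₂ q₃ : P, ¬ p ≤ q₁ → ¬ q₁ ≤ p → ¬ p ≤ q₂ → ¬ q₂ ≤ p → ¬ p ≤ q₃ → ¬ q₃ ≤ p →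
      q₁ ≠ q₂ → q₁ ≠ q₃ → q₂ ≠ q₃ → False := by
  induction h with
  | one P e =>
    intro p q₁ q₂ q₃ h1
    obtain ⟨e⟩ := e
    exact absurd (e.le_iff_le.mp (by rw [Subsingleton.elim (e p) (e q₁)])) h1
  | three P e =>
    obtain ⟨e⟩ := e
    have key : ∀ p q₁ q₂ q₃ : Fin 2 ⊕ Fin 1, ¬ p ≤ q₁ → ¬ q₁ ≤ p → ¬ p ≤ q₂ → ¬ q₂ ≤ p →
      ¬ p ≤ q₃ → ¬ q₃ ≤ p → q₁ ≠ q₂ → q₁ ≠ q₃ → q₂ ≠ q₃ → False := by
      intro p q₁ q₂ q₃ h1 h2 h3 h4 h5 h6 h7 h8 h9
      rcases p with p | p
      · have aux : ∀ q : Fin 2 ⊕ Fin 1, ¬ (Sum.inl p ≤ q) → ¬ (q ≤ Sum.inl p) → q = Sum.inr 0 := by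
          intro q ha hb
          rcases q with q | q
          · rcases le_total p q with h | h
            · exact absurd (Sum.inl_le_inl_iff.mpr h) ha
            · exact absurd (Sum.inl_le_inl_iff.mpr h) hb
          · rw [Subsingleton.elim q 0]
        exact h7 ((aux q₁ h1 h2).trans (aux q₂ h3 h4).symm)
      · have aux : ∀ q : Fin 2 ⊕ Fin 1, ¬ (Sum.inr p ≤ q) → ¬ (q ≤ Sum.inr p) →
            q = Sum.inl 0 ∨ q = Sum.inl 1 := by
          intro q ha hb
          rcases q with q | q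
          · have : q = 0 ∨ q = 1 := by omega
            rcases this with h | h <;> rw [h]
            · exact Or.inl rfl
            · exact Or.inr rfl
          · exact absurd (Sum.inr_le_inr_iff.mpr (le_of_eq (Subsingleton.elim p q))) ha
        rcases aux q₁ h1 h2 with e1 | e1 <;> rcases aux q₂ h3 h4 with e2 | e2 <;>
          rcases aux q₃ h5 h6 with e3 | e3
        · exact h7 (e1.trans e2.symm)
        · exact h7 (e1.trans e2.symm)
        · exact h8 (e1.trans e3.symm)
        · exact h9 (e2.trans e3.symm)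
        · exact h9 (e2.trans e3.symm)
        · exact h8 (e1.trans e3.symm)
        · exact h7 (e1.trans e2.symm)
        · exact h7 (e1.trans e2.symm)
    intro p q₁ q₂ q₃ h1 h2 h3 h4 h5 h6 h7 h8 h9
    exact key (e p) (e q₁) (e q₂) (e q₃) (by simpa using h1) (by simpa using h2)
      (by simpa using h3) (by simpa using h4) (by simpa using h5) (by simpa using h6)
      (by simpa using h7) (by simpa using h8) (by simpa using h9)
  | sum P Q R _ _ e ihP ihQ =>
    obtain ⟨e⟩ := e
    have key : ∀ p q₁ q₂ q₃ : P ⊕ₗ Q, ¬ p ≤ q₁ → ¬ q₁ ≤ p → ¬ p ≤ q₂ → ¬ q₂ ≤ p →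
      ¬ p ≤ q₃ → ¬ q₃ ≤ p → q₁ ≠ q₂ → q₁ ≠ q₃ → q₂ ≠ q₃ → False := by
      intro p q₁ q₂ q₃ h1 h2 h3 h4 h5 h6 h7 h8 h9
      rcases p with p | p
      · rcases q₁ with q₁ | q₁
        · rcases q₂ with q₂ | q₂
          · rcases q₃ with q₃ | q₃
            · refine ihP p q₁ q₂ q₃ (fun h => h1 (Sum.Lex.inl h)) (fun h => h2 (Sum.Lex.inl h))
                (fun h => h3 (Sum.Lex.inl h)) (fun h => h4 (Sum.Lex.inl h))
                (fun h => h5 (Sum.Lex.inl h)) (fun h => h6 (Sum.Lex.inl h))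
                (fun h => h7 (by rw [h])) (fun h => h8 (by rw [h])) (fun h => h9 (by rw [h]))
            · exact h5 (Sum.Lex.sep _ _)
          · exact h3 (Sum.Lex.sep _ _)
        · exact h1 (Sum.Lex.sep _ _)
      · rcases q₁ with q₁ | q₁
        · exact h2 (Sum.Lex.sep _ _)
        · rcases q₂ with q₂ | q₂
          · exact h4 (Sum.Lex.sep _ _)
          · rcases q₃ with q₃ | q₃
            · exact h6 (Sum.Lex.sep _ _)
            · refine ihQ p q₁ q₂ q₃ (fun h => h1 (Sum.Lex.inr h)) (fun h => h2 (Sum.Lex.inr h))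
                (fun h => h3 (Sum.Lex.inr h)) (fun h => h4 (Sum.Lex.inr h))
                (fun h => h5 (Sum.Lex.inr h)) (fun h => h6 (Sum.Lex.inr h))
                (fun h => h7 (by rw [h])) (fun h => h8 (by rw [h])) (fun h => h9 (by rw [h]))
    intro p q₁ q₂ q₃ h1 h2 h3 h4 h5 h6 h7 h8 h9
    exact key (e p) (e q₁) (e q₂) (e q₃) (by simpa using h1) (by simpa using h2)
      (by simpa using h3) (by simpa using h4) (by simpa using h5) (by simpa using h6)
      (by simpa using h7) (by simpa using h8) (by simpa using h9)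

section LE

variable {P : Type} [Fintype P] [PartialOrder P]

/-- lower sets -/
def IsLow (J : Finset P) : Prop := ∀ p ∈ J, ∀ q, q ≤ p → q ∈ J

omit [PartialOrder P] in
lemma mem_Hs {n : ℕ} {f : P ≃ Fin n} {k : ℕ} {p : P} : p ∈ Hs f k ↔ (f p : ℕ) < k := by
  simp [Hs]

lemma mono_iff {n : ℕ} (f : P ≃ Fin n) : Monotone f ↔ ∀ k ≤ n, IsLow (Hs f k) := by
  constructor
  · intro hf k _ p hp q hq
    rw [mem_Hs] at hp ⊢
    have := hf hq
    rw [Fin.le_def] at this
    omega
  · intro h q p hqp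
    have h1 := h ((f p : ℕ) + 1) (f p).2 p (by rw [mem_Hs]; omega) q hqp
    rw [mem_Hs] at h1
    rw [Fin.le_def]
    omega

lemma mono_lt_iff {n : ℕ} (f : P ≃ Fin n) {x y : P} (hxy : x ≠ y) :
    (Monotone f ∧ f x < f y) ↔ ∀ k ≤ n, IsLow (Hs f k) ∧ (y ∈ Hs f k → x ∈ Hs f k) := by
  rw [mono_iff]
  constructor
  · rintro ⟨h1, h2⟩ k hk
    refine ⟨h1 k hk, fun h => ?_⟩
    rw [mem_Hs] at h ⊢
    rw [Fin.lt_def] at h2
    omega
  · intro h
    refine ⟨fun k hk => (h k hk).1, ?_⟩
    have h1 := (h ((f y : ℕ) + 1) (f y).2).2 (by rw [mem_Hs]; omega)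
    rw [mem_Hs] at h1
    have h2 : f x ≠ f y := fun h => hxy (f.injective h)
    have h3 : (f x : ℕ) ≠ f y := fun h => h2 (Fin.ext h)
    rw [Fin.lt_def]
    omega

lemma prob_self (x : P) : prob P x x = 0 := by
  unfold prob
  have : IsEmpty {f : P ≃ Fin (Fintype.card P) // Monotone f ∧ f x < f x} :=
    ⟨fun f => absurd f.2.2 (lt_irrefl _)⟩
  rw [Nat.card_of_isEmpty]
  simp

lemma prob_eq_zero_of_le {x y : P} (h : x ≤ y) : prob P y x = 0 := by
  unfold prob
  have : IsEmpty {f : P ≃ Fin (Fintype.card P) // Monotone f ∧ f y < f x} :=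
    ⟨fun f => absurd f.2.2 (not_lt.mpr (f.2.1 h))⟩
  rw [Nat.card_of_isEmpty]
  simp

end LE

end Pool.Agent.H13R3.WB
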